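import Pool.Agent.U136.DS.Stm
import Pool.Agent.N983.RT.BCS
import Pool.Agent.N983.RT.CS

set_option autoImplicit false

/-! DS/NB: the near-resonant triads (helper338). -/

namespace Pool.Agent.U338.DS

open Pool.Agent.N983.RT Pool.Agent.U136.DS

/-- the trilinear bound from the number of the triads of every wave vector -/
lemma nb_tri (R : ℕ) (b : Wv → Wv → ℝ) (M : ℝ) (hM : 0 ≤ M) (h1 : ∀ k l, |b k l| ≤ 1)
    (h2 : ∀ k l, b k l ≠ 0 → -(k + l) ∈ cub R)
    (h3 : ∀ m ∈ cub R, ∀ S ⊆ cub R, (∀ k ∈ S, b k (-m - k) ≠ 0) → (S.card : ℝ) ≤ M)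
    (x y z : Wv → ℂ) : ‖Tri b R x y z‖ ≤ Real.sqrt M * (N2 R x * N2 R y * N2 R z) := by
  classical
  obtain ⟨ρ, hρ⟩ : ∃ ρ : (Wv → ℂ) → Wv → ℝ, ρ = fun x k =>
    if k ∈ cub R then ‖x k‖ else 0 := ⟨_, rfl⟩
  have ρ0 : ∀ x k, 0 ≤ ρ x k := by
    intro x k
    rw [hρ]
    dsimp only
    split_ifs
    · exact norm_nonneg _
    · exact le_rfl
  have ρe : ∀ x k, k ∈ cub R → ρ x k = ‖x k‖ := by
    intro x k h1
    rw [hρ]
    exact if_pos h1
  have ρz : ∀ x k, k ∉ cub R → ρ x k = 0 := by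
    intro x k h1
    rw [hρ]
    exact if_neg h1
  have ρN : ∀ x, ∑ k ∈ cub R, ρ x k ^ 2 = (N2 R x) ^ 2 := by
    intro x
    rw [N2, Real.sq_sqrt (Finset.sum_nonneg fun k _ => by positivity)]
    refine Finset.sum_congr rfl fun k hk => ?_
    rw [ρe x k hk]
  obtain ⟨P, hP⟩ : ∃ P : Wv → ℝ, P = fun m =>
    ∑ k ∈ cub R, if b k (-m - k) ≠ 0 then ρ x k * ρ y (-m - k) else 0 := ⟨_, rfl⟩
  have s1 : ‖Tri b R x y z‖ ≤
      ∑ k ∈ cub R, ρ x k * ∑ l ∈ cub R, (if b k l ≠ 0 then ρ y l * ρ z (-(k + l)) else 0) := by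
    rw [Tri]
    refine (norm_sum_le _ _).trans (Finset.sum_le_sum fun k hk => ?_)
    rw [Finset.mul_sum]
    refine (norm_sum_le _ _).trans (Finset.sum_le_sum fun l hl => ?_)
    by_cases hakl : b k l = 0
    · rw [hakl, Complex.ofReal_zero, zero_mul, zero_mul, zero_mul, norm_zero, if_neg (by simp),
        mul_zero]
    · have h4 := h2 k l hakl
      rw [if_pos hakl, ρe x k hk, ρe y l hl, ρe z (-(k + l)) h4, norm_mul, norm_mul,
        norm_mul, Complex.norm_real, Real.norm_eq_abs]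
      have h5 := h1 k l
      have h6 : 0 ≤ ‖x k‖ * (‖y l‖ * ‖z (-(k + l))‖) := by positivity
      calc |b k l| * ‖x k‖ * ‖y l‖ * ‖z (-(k + l))‖ =
            |b k l| * (‖x k‖ * (‖y l‖ * ‖z (-(k + l))‖)) := by ring
        _ ≤ 1 * (‖x k‖ * (‖y l‖ * ‖z (-(k + l))‖)) := mul_le_mul_of_nonneg_right h5 h6
        _ = _ := one_mul _
  have s2 : ∑ k ∈ cub R, ρ x k * ∑ l ∈ cub R, (if b k l ≠ 0 then ρ y l * ρ z (-(k + l)) else 0) ≤
      ∑ m ∈ cub R, ρ z m * P m := by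
    have e1 : ∀ m ∈ cub R, ρ z m * P m =
        ∑ k ∈ cub R, ρ x k * (if b k (-m - k) ≠ 0 then ρ y (-m - k) * ρ z m else 0) := by
      intro m _
      rw [hP]
      dsimp only
      rw [Finset.mul_sum]
      refine Finset.sum_congr rfl fun k _ => ?_
      split_ifs
      · ring
      · ring
    rw [Finset.sum_congr rfl e1, Finset.sum_comm (s := cub R) (t := cub R)
      (f := fun m k => ρ x k * (if b k (-m - k) ≠ 0 then ρ y (-m - k) * ρ z m else 0))]
    refine Finset.sum_le_sum fun k _ => ?_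
    rw [← Finset.mul_sum]
    refine mul_le_mul_of_nonneg_left ?_ (ρ0 x k)
    have h1 := cs_shift R (fun m => if b k (-m - k) ≠ 0 then ρ y (-m - k) * ρ z m else 0)
      (fun v => by
        split_ifs
        · exact mul_nonneg (ρ0 _ _) (ρ0 _ _)
        · exact le_rfl) (fun v hv => by
        rw [ρz z v hv, mul_zero, ite_self]) k
    refine le_trans (le_of_eq ?_) h1
    refine Finset.sum_congr rfl fun l _ => ?_
    have a1 : -(-l - k) - k = l := by abel
    have a2 : -(k + l) = -l - k := by abel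
    show (if b k l ≠ 0 then ρ y l * ρ z (-(k + l)) else 0) =
      (if b k (-(-l - k) - k) ≠ 0 then ρ y (-(-l - k) - k) * ρ z (-l - k) else 0)
    rw [a1, a2]
  have s3 : ∑ m ∈ cub R, P m ^ 2 ≤
      M * ((∑ k ∈ cub R, ρ x k ^ 2) * ∑ k ∈ cub R, ρ y k ^ 2) := by
    calc ∑ m ∈ cub R, P m ^ 2 ≤ ∑ m ∈ cub R, M * ∑ k ∈ cub R, ρ x k ^ 2 * ρ y (-m - k) ^ 2 := by
          refine Finset.sum_le_sum fun m hm => ?_
          rw [hP]
          dsimp only
          rw [← Finset.sum_filter]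
          refine (sq_sum_le_card_mul_sum_sq).trans ?_
          refine mul_le_mul ?_ ?_ (Finset.sum_nonneg fun k _ => sq_nonneg _) hM
          · refine h3 m hm _ (Finset.filter_subset _ _) ?_
            intro k hk
            exact (Finset.mem_filter.1 hk).2
          · refine le_trans (Finset.sum_le_sum_of_subset_of_nonneg (Finset.filter_subset _ _)
              fun k _ _ => sq_nonneg _) (le_of_eq ?_)
            refine Finset.sum_congr rfl fun k _ => ?_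
            ring
      _ = M * ∑ k ∈ cub R, ρ x k ^ 2 * ∑ m ∈ cub R, ρ y (-m - k) ^ 2 := by
          rw [← Finset.mul_sum, Finset.sum_comm]
          simp only [Finset.mul_sum]
      _ ≤ M * ∑ k ∈ cub R, ρ x k ^ 2 * ∑ m ∈ cub R, ρ y m ^ 2 := by
          refine mul_le_mul_of_nonneg_left (Finset.sum_le_sum fun k _ => ?_) hM
          refine mul_le_mul_of_nonneg_left ?_ (sq_nonneg _)
          exact cs_shift R (fun v => ρ y v ^ 2) (fun v => sq_nonneg _) (fun v hv => by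
            rw [ρz y v hv]
            norm_num) k
      _ = _ := by rw [← Finset.sum_mul]
  have s4 := Finset.sum_mul_sq_le_sq_mul_sq (cub R) (ρ z) P
  have n1 : ∀ x, 0 ≤ N2 R x := fun x => Real.sqrt_nonneg _
  have s5 : ‖Tri b R x y z‖ ^ 2 ≤
      (Real.sqrt M * (N2 R x * N2 R y * N2 R z)) ^ 2 := by
    calc ‖Tri b R x y z‖ ^ 2 ≤ (∑ m ∈ cub R, ρ z m * P m) ^ 2 :=
          pow_le_pow_left₀ (norm_nonneg _) (s1.trans s2) 2
      _ ≤ (∑ m ∈ cub R, ρ z m ^ 2) * ∑ m ∈ cub R, P m ^ 2 := s4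
      _ ≤ (N2 R z) ^ 2 * (M * ((N2 R x) ^ 2 * (N2 R y) ^ 2)) := by
          rw [ρN z]
          refine mul_le_mul_of_nonneg_left ?_ (sq_nonneg _)
          rw [← ρN x, ← ρN y]
          exact s3
      _ = (Real.sqrt M * (N2 R x * N2 R y * N2 R z)) ^ 2 := by
          rw [mul_pow, Real.sq_sqrt hM]
          ring
  refine (pow_le_pow_iff_left₀ (norm_nonneg _) ?_ two_ne_zero).1 s5
  exact mul_nonneg (Real.sqrt_nonneg _) (mul_nonneg (mul_nonneg (n1 x) (n1 y)) (n1 z))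

lemma nb_abs (lam : Wv → ℝ) (c₁ τ : ℝ) (k l m : Wv) : |near lam c₁ τ k l m| ≤ 1 := by
  classical
  unfold near
  split_ifs <;> simp

/-- few near-resonant triads: the trilinear bound -/
lemma nb_TB (lam : Wv → ℝ) (c₁ τ θ B : ℝ) (hD : Deg lam c₁ τ θ B) :
    TB (near lam c₁ τ) (θ / 2) := by
  classical
  have hB : 0 ≤ B := by
    have h := hD 1 le_rfl 0 ((cs_mem 1 0).2 fun i => by simp)
    rw [Nat.cast_one, Real.one_rpow, mul_one] at h
    exact le_trans (Nat.cast_nonneg _) h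
  intro s i
  refine ⟨2 ^ (1 + 2 * s) * (Real.sqrt B * (2 : ℝ) ^ (θ / 2)), by positivity, fun c x y z => ?_⟩
  obtain ⟨W, hW⟩ : ∃ W : ℝ, W = ((2 : ℝ) ^ (c + 1)) ^ (1 + 2 * s) := ⟨_, rfl⟩
  have hW0 : 0 < W := by rw [hW]; positivity
  have e1 : (fun k l => near lam c₁ τ k l (-(k + l)) * wgt s c i k l) =
      fun k l => W * (near lam c₁ τ k l (-(k + l)) * bcs_w s c i k l) := by
    funext k l
    unfold bcs_w
    rw [← hW]
    field_simp
  rw [e1, bcs_smul, norm_mul, Complex.norm_real, Real.norm_of_nonneg hW0.le]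
  have hsupp : ∀ k l, near lam c₁ τ k l (-(k + l)) * bcs_w s c i k l ≠ 0 →
      -(k + l) ∈ cub (2 ^ (c + 1)) := by
    intro k l h
    exact bcs_mem (right_ne_zero_of_mul h)
  have hone : ∀ k l, |near lam c₁ τ k l (-(k + l)) * bcs_w s c i k l| ≤ 1 := by
    intro k l
    rw [abs_mul]
    calc |near lam c₁ τ k l (-(k + l))| * |bcs_w s c i k l| ≤ 1 * 1 :=
          mul_le_mul (nb_abs _ _ _ _ _ _) (bcs_w_le _ _ _ _ _) (abs_nonneg _) zero_le_one
      _ = 1 := one_mul _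
  have hcard : ∀ m ∈ cub (2 ^ (c + 1)), ∀ S ⊆ cub (2 ^ (c + 1)),
      (∀ k ∈ S, near lam c₁ τ k (-m - k) (-(k + (-m - k))) * bcs_w s c i k (-m - k) ≠ 0) →
        (S.card : ℝ) ≤ B * ((2 ^ (c + 1) : ℕ) : ℝ) ^ θ := by
    intro m hm S hS hSk
    refine le_trans ?_ (hD (2 ^ (c + 1)) Nat.one_le_two_pow m hm)
    exact_mod_cast Finset.card_le_card fun k hk => Finset.mem_filter.2 ⟨hS hk, by
      have h := left_ne_zero_of_mul (hSk k hk)
      have a1 : -(k + (-m - k)) = m := by abel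
      have a2 : -m - k = -(k + m) := by abel
      rw [a1, a2] at h
      exact h⟩
  have hmain := nb_tri (2 ^ (c + 1)) _ _ (by positivity) hone hsupp hcard x y z
  have hN : 0 ≤ N2 (2 ^ (c + 1)) x * N2 (2 ^ (c + 1)) y * N2 (2 ^ (c + 1)) z := by
    unfold N2; positivity
  have hsq : Real.sqrt (B * ((2 ^ (c + 1) : ℕ) : ℝ) ^ θ) =
      Real.sqrt B * (2 : ℝ) ^ (θ / 2) * ((2 : ℝ) ^ c) ^ (θ / 2) := by
    rw [Real.sqrt_mul hB]
    have e : ((2 ^ (c + 1) : ℕ) : ℝ) ^ θ = (((2 : ℝ) * 2 ^ c) ^ (θ / 2)) ^ 2 := by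
      rw [← Real.rpow_natCast, ← Real.rpow_mul (by positivity)]
      push_cast
      rw [pow_succ']
      congr 1
      ring
    rw [e, Real.sqrt_sq (by positivity), Real.mul_rpow (by norm_num) (by positivity)]
    ring
  have hpow : ((2 : ℝ) ^ c) ^ (1 + 2 * (s : ℝ) + θ / 2) =
      ((2 : ℝ) ^ c) ^ (1 + 2 * s) * ((2 : ℝ) ^ c) ^ (θ / 2) := by
    rw [Real.rpow_add (by positivity)]
    congr 1
    rw [← Real.rpow_natCast ((2 : ℝ) ^ c) (1 + 2 * s)]
    congr 1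
    push_cast
    ring
  rw [hsq] at hmain
  rw [hpow]
  refine (mul_le_mul_of_nonneg_left hmain hW0.le).trans (le_of_eq ?_)
  rw [hW, pow_succ 2 c, mul_pow]
  ring

/-- interpolation of powers -/
lemma nb_young (a b ε : ℝ) (hb : 0 ≤ b) (hab : b < a) (hε : 0 < ε) :
    ∃ C : ℝ, 0 ≤ C ∧ ∀ x : ℝ, 0 ≤ x → x ^ b ≤ ε * x ^ a + C := by
  obtain ⟨X, hX⟩ : ∃ X : ℝ, X = (1 / ε) ^ (1 / (a - b)) := ⟨_, rfl⟩
  have hX0 : 0 < X := by rw [hX]; positivity
  refine ⟨X ^ b, by positivity, fun x hx => ?_⟩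
  rcases le_or_gt x X with h | h
  · have h1 := Real.rpow_le_rpow hx h hb
    have h2 : 0 ≤ ε * x ^ a := by positivity
    linarith
  · have hx0 : 0 < x := hX0.trans h
    have h1 : X ^ (a - b) ≤ x ^ (a - b) := Real.rpow_le_rpow hX0.le h.le (by linarith)
    have h2 : X ^ (a - b) = 1 / ε := by
      rw [hX, ← Real.rpow_mul (by positivity), one_div_mul_cancel (by linarith), Real.rpow_one]
    rw [h2] at h1
    have h3 : x ^ a = x ^ b * x ^ (a - b) := by
      rw [← Real.rpow_add hx0]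
      congr 1
      ring
    have h4 : 0 ≤ X ^ b := by positivity
    have h5 : 0 ≤ x ^ b := by positivity
    have h6 : x ^ b ≤ ε * x ^ a := by
      rw [h3]
      calc x ^ b = x ^ b * (ε * (1 / ε)) := by field_simp
        _ ≤ x ^ b * (ε * x ^ (a - b)) := by
            refine mul_le_mul_of_nonneg_left ?_ h5
            exact mul_le_mul_of_nonneg_left h1 hε.le
        _ = _ := by ring
    linarith

theorem t_NB : S_NB := by
  intro hE lam c₁ τ θ B hc₁ _ hθ0 hθ2 hD s M ε hε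
  obtain ⟨C, hC0, hC⟩ := hE (near lam c₁ τ) (θ / 2) (by linarith) (nb_TB lam c₁ τ θ B hD) s
  obtain ⟨M', hM'⟩ : ∃ M' : ℝ, M' = max M 0 := ⟨_, rfl⟩
  have hM0 : 0 ≤ M' := by rw [hM']; exact le_max_right _ _
  have hMM : M ≤ M' := by rw [hM']; exact le_max_left _ _
  obtain ⟨L, hL⟩ : ∃ L : ℝ, L = C * Real.sqrt M' := ⟨_, rfl⟩
  have hL0 : 0 ≤ L := by rw [hL]; positivity
  have hs0 : (0 : ℝ) ≤ s := Nat.cast_nonneg s
  obtain ⟨C', hC'0, hC'⟩ := nb_young ((s : ℝ) + 1) ((s : ℝ) + (1 + θ / 2) / 2) (ε / (L + 1))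
    (by linarith) (by linarith) (by positivity)
  refine ⟨L * (C' * M'), fun n u hu hn hen => ?_⟩
  have h1 := hC n u hu.zero hn
  have hEr : Er ((s : ℝ) + (1 + θ / 2) / 2) n u ≤
      ε / (L + 1) * Er ((s : ℝ) + 1) n u + C' * En 0 n u := by
    unfold Er En
    rw [Finset.mul_sum, Finset.mul_sum, ← Finset.sum_add_distrib]
    refine Finset.sum_le_sum fun k _ => ?_
    have h2 := hC' (nsq k) (bcs_nn k)
    have h3 : 0 ≤ ∑ i, ‖u k i‖ ^ 2 := by positivity
    rw [pow_zero, one_mul]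
    calc _ ≤ (ε / (L + 1) * nsq k ^ ((s : ℝ) + 1) + C') * ∑ i, ‖u k i‖ ^ 2 :=
          mul_le_mul_of_nonneg_right h2 h3
      _ = _ := by ring
  have hErn : ∀ r : ℝ, 0 ≤ Er r n u := fun r => by
    unfold Er
    exact Finset.sum_nonneg fun k _ => mul_nonneg (Real.rpow_nonneg (bcs_nn k) _) (by positivity)
  have hEn0 : 0 ≤ En 0 n u := by
    unfold En
    exact Finset.sum_nonneg fun k _ => mul_nonneg (pow_nonneg (bcs_nn k) _) (by positivity)
  have hsq : C * Real.sqrt (En 0 n u) ≤ L := by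
    rw [hL]
    exact mul_le_mul_of_nonneg_left (Real.sqrt_le_sqrt (hen.trans hMM)) hC0
  calc ‖form (near lam c₁ τ) s n u‖
      ≤ C * Real.sqrt (En 0 n u) * Er ((s : ℝ) + (1 + θ / 2) / 2) n u := h1
    _ ≤ L * Er ((s : ℝ) + (1 + θ / 2) / 2) n u := mul_le_mul_of_nonneg_right hsq (hErn _)
    _ ≤ L * (ε / (L + 1) * Er ((s : ℝ) + 1) n u + C' * M') := by
        refine mul_le_mul_of_nonneg_left (hEr.trans ?_) hL0
        have := mul_le_mul_of_nonneg_left (hen.trans hMM) hC'0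
        linarith
    _ ≤ ε * Er ((s : ℝ) + 1) n u + L * (C' * M') := by
        have h4 : L * (ε / (L + 1)) ≤ ε := by
          rw [mul_div_assoc', div_le_iff₀ (by linarith)]
          nlinarith
        have h5 := mul_le_mul_of_nonneg_right h4 (hErn ((s : ℝ) + 1))
        nlinarith

end Pool.Agent.U338.DS
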